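import Pool.Agent.Helper84.OB.All

open Set Pool.Agent.Helper84.BT Pool.Agent.Helper84.OB

namespace Pool.Agent.Results.MP_ab4175_co.CircuitHyperplanes

/-- A matroid `M` such that `M` and its dual are transversal, which is not a principal transversal
matroid, has a minor `N` whose ground set is the disjoint union of two circuit-hyperplanes of `N`
with at least three elements. -/
theorem result {α : Type*} [Finite α] (M : Matroid α) (h : IsTransversal M)
    (hdual : IsTransversal M✶) (hnp : ¬ IsPrincipal M) :
    ∃ (N : Matroid α) (C D : Set α), N ≤m M ∧ Disjoint C D ∧ C ∪ D = N.E ∧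
      3 ≤ C.encard ∧ IsCircuitHyperplane N C ∧ IsCircuitHyperplane N D :=
  conclusion M h hdual hnp

end Pool.Agent.Results.MP_ab4175_co.CircuitHyperplanes
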