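import Pool.Agent.Helper84.BT.Transport

open Set Pool.Agent.Helper84.BT

namespace Pool.Agent.Results.MP_ab4175_co.ModularPairs

/-- A transversal matroid whose dual is also transversal is a principal transversal matroid if and
only if every two of its cyclic flats form a modular pair. -/
theorem result {α : Type*} [Finite α] (M : Matroid α) (h : IsTransversal M)
    (hdual : IsTransversal M✶) :
    IsPrincipal M ↔ ∀ X Y : Set α, IsCyclicFlat M X → IsCyclicFlat M Y →
      M.eRk X + M.eRk Y = M.eRk (X ∪ Y) + M.eRk (X ∩ Y) := by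
  have key : ModZ M ↔ ∀ X Y : Set α, IsCyclicFlat M X → IsCyclicFlat M Y →
      M.eRk X + M.eRk Y = M.eRk (X ∪ Y) + M.eRk (X ∩ Y) := by
    constructor
    · intro hm X Y hX hY
      have := hm ⟨X, hX⟩ ⟨Y, hY⟩
      rw [← coe_rk, ← coe_rk, ← coe_rk, ← coe_rk]
      exact_mod_cast this
    · intro hm X Y
      have := hm X Y X.2 Y.2
      rw [← coe_rk, ← coe_rk, ← coe_rk, ← coe_rk] at this
      exact_mod_cast this
  rw [← key]
  exact ⟨modZ_of_isPrincipal, isPrincipal_of_modZ h hdual⟩

end Pool.Agent.Results.MP_ab4175_co.ModularPairs
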