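import Pool.Agent.Helper84.BT.Mutual3

open Set Pool.Agent.Helper84.BT

namespace Pool.Agent.Results.MP_ab4175_co.MutualExpansion

/-- The family `A` expands over the family `Y`: for every set `I` of indices of `A`, the union of
the sets `A i`, `i ∈ I`, has at least as many elements as there are indices in `I` and indices `j`
such that `Y j` meets this union, taken together. -/
def Expands {α ι κ : Type*} (A : ι → Set α) (Y : κ → Set α) : Prop :=
  ∀ I : Set ι, I.encard + {j : κ | (Y j ∩ ⋃ i ∈ I, A i).Nonempty}.encard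
    ≤ (⋃ i ∈ I, A i).encard

/-- The family `A` expands tightly over the family `Y`: the same with equality throughout. -/
def ExpandsTightly {α ι κ : Type*} (A : ι → Set α) (Y : κ → Set α) : Prop :=
  ∀ I : Set ι, I.encard + {j : κ | (Y j ∩ ⋃ i ∈ I, A i).Nonempty}.encard
    = (⋃ i ∈ I, A i).encard

/-- Characterization of the finite matroids that are both transversal and cotransversal. Families
`A` (`r` sets) and `Y` (`m` sets) of subsets of a set of `r + m` elements are presentations of a
matroid and of its dual if and only if they expand over each other; every matroid that is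
transversal and cotransversal arises in this way; and the principal transversal matroids are those
for which both families can be chosen to expand tightly. -/
theorem result {α : Type*} [Finite α] :
    (∀ (E : Set α) (r m : ℕ) (A : Fin r → Set α) (Y : Fin m → Set α),
      (∀ i, A i ⊆ E) → (∀ j, Y j ⊆ E) → E.encard = r + m →
      ((Expands A Y ∧ Expands Y A) ↔
        ∃ M : Matroid α, M.E = E ∧ IsPresentation A M ∧ IsPresentation Y M✶)) ∧
    (∀ M : Matroid α, IsTransversal M → IsTransversal M✶ →
      ∃ (r m : ℕ) (A : Fin r → Set α) (Y : Fin m → Set α), M.E.encard = r + m ∧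
        IsPresentation A M ∧ IsPresentation Y M✶ ∧ Expands A Y ∧ Expands Y A) ∧
    (∀ M : Matroid α, IsPrincipal M ↔
      ∃ (r m : ℕ) (A : Fin r → Set α) (Y : Fin m → Set α), M.E.encard = r + m ∧
        IsPresentation A M ∧ IsPresentation Y M✶ ∧ ExpandsTightly A Y ∧ ExpandsTightly Y A) := by
  have conv : ∀ S : Set α, S.encard = (S.ncard : ℕ∞) := fun S =>
    (Set.Finite.cast_ncard_eq (Set.toFinite S)).symm
  have conv' : ∀ {n : ℕ} (S : Set (Fin n)), S.encard = (S.ncard : ℕ∞) := fun S =>
    (Set.Finite.cast_ncard_eq (Set.toFinite S)).symm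
  have hexp : ∀ {r m : ℕ} {A : Fin r → Set α} {Y : Fin m → Set α},
      Expands A Y ↔ Exps A Y := by
    intro r m A Y
    refine forall_congr' fun I => ?_
    rw [conv (⋃ i ∈ I, A i), conv' I, conv' {j : Fin m | (Y j ∩ ⋃ i ∈ I, A i).Nonempty}]
    exact_mod_cast Iff.rfl
  have htight : ∀ {r m : ℕ} {A : Fin r → Set α} {Y : Fin m → Set α},
      ExpandsTightly A Y ↔ ExpsEq A Y := by
    intro r m A Y
    refine forall_congr' fun I => ?_
    rw [conv (⋃ i ∈ I, A i), conv' I, conv' {j : Fin m | (Y j ∩ ⋃ i ∈ I, A i).Nonempty}]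
    exact_mod_cast Iff.rfl
  have hE : ∀ {E : Set α} {r m : ℕ}, E.encard = r + m ↔ E.ncard = r + m := by
    intro E r m
    rw [conv]
    exact_mod_cast Iff.rfl
  refine ⟨?_, ?_, ?_⟩
  · intro E r m A Y hA hY hcard
    rw [hexp, hexp]
    apply exps_iff_dual hA hY
    rw [Nat.card_eq_fintype_card, Nat.card_eq_fintype_card, Fintype.card_fin, Fintype.card_fin]
    exact hE.1 hcard
  · intro M h1 h2
    obtain ⟨r, m, A, Y, hA, hY, hc, e1, e2⟩ := exists_exps h1 h2
    exact ⟨r, m, A, Y, hE.2 hc, hA, hY, hexp.2 e1, hexp.2 e2⟩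
  · intro M
    constructor
    · intro h
      obtain ⟨r, m, A, Y, hA, hY, hc, e1, e2⟩ := exists_expsEq h
      exact ⟨r, m, A, Y, hE.2 hc, hA, hY, htight.2 e1, htight.2 e2⟩
    · rintro ⟨r, m, A, Y, hc, hA, hY, e1, -⟩
      exact isPrincipal_of_expsEq hA (fun j => hY.1 j) (hE.1 hc) (htight.1 e1)

end Pool.Agent.Results.MP_ab4175_co.MutualExpansion
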