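import Pool.Agent.Helper84.BT.Param

open Set Pool.Agent.Helper84.BT

namespace Pool.Agent.Results.MP_ab4175_co.Parametrization

/-- Parametrization of the finite matroids that are both transversal and cotransversal. They are
exactly the matroids obtained from a principal transversal matroid `N` and a rearrangement `ψ` of
its cyclic flats: the sets that meet each `ψ X` in at most `r_N(X)` elements are the independent
sets of such a matroid (whose cyclic flats are the sets `ψ X`, with ranks `r_N(X)`), every such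
matroid arises in this way, and it determines the pair `(N, ψ)` up to isomorphism. -/
theorem result {α : Type*} [Finite α] :
    (∀ (N : Matroid α) (ψ : CyclicFlats N → Set α), IsPrincipal N → IsRearrangement N ψ →
      ∃ M : Matroid α, IsRearranged M N ψ ∧ IsTransversal M ∧ IsTransversal M✶ ∧
        (∀ F : Set α, IsCyclicFlat M F ↔ ∃ X, ψ X = F) ∧
        ∀ X : CyclicFlats N, M.eRk (ψ X) = N.eRk (X : Set α)) ∧
    (∀ M : Matroid α, IsTransversal M → IsTransversal M✶ →
      ∃ (N : Matroid α) (ψ : CyclicFlats N → Set α),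
        IsPrincipal N ∧ IsRearrangement N ψ ∧ IsRearranged M N ψ) ∧
    (∀ (M N₁ N₂ : Matroid α) (ψ₁ : CyclicFlats N₁ → Set α) (ψ₂ : CyclicFlats N₂ → Set α),
      IsPrincipal N₁ → IsPrincipal N₂ → IsRearrangement N₁ ψ₁ → IsRearrangement N₂ ψ₂ →
      IsRearranged M N₁ ψ₁ → IsRearranged M N₂ ψ₂ →
      ∃ e : N₁.E ≃ N₂.E,
        (∀ I : Set N₁.E, N₁.Indep (Subtype.val '' I) ↔ N₂.Indep (Subtype.val '' (e '' I))) ∧
        ∀ (X₁ : CyclicFlats N₁) (X₂ : CyclicFlats N₂), ψ₁ X₁ = ψ₂ X₂ →
          ∀ a : N₁.E, (a : α) ∈ (X₁ : Set α) ↔ (e a : α) ∈ (X₂ : Set α)) := by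
  have conv : ∀ A : Set α, A.encard = (A.ncard : ℕ∞) := fun A =>
    (Set.Finite.cast_ncard_eq (Set.toFinite A)).symm
  have hadm : ∀ {N : Matroid α} {ψ : CyclicFlats N → Set α}, IsRearrangement N ψ ↔ Adm N ψ := by
    intro N ψ
    constructor
    · intro h
      refine ⟨h.subset_ground, h.mono, fun X => ?_, fun S hS => ?_, fun S hS => ?_⟩
      · have := h.encard_eq X
        rwa [conv, conv, Nat.cast_inj] at this
      · have := h.inter_le S hS
        rwa [conv, conv, Nat.cast_le] at this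
      · have := h.le_union S hS
        rwa [conv, conv, Nat.cast_le] at this
    · intro h
      refine ⟨h.sub, h.mono, fun X => ?_, fun S hS => ?_, fun S hS => ?_⟩
      · rw [conv, conv, Nat.cast_inj]; exact h.card X
      · rw [conv, conv, Nat.cast_le]; exact h.inter S hS
      · rw [conv, conv, Nat.cast_le]; exact h.union S hS
  have hreal : ∀ {M N : Matroid α} {ψ : CyclicFlats N → Set α}, IsRearranged M N ψ ↔
      Pool.Agent.Helper84.BT.Real M N ψ := by
    intro M N ψ
    simp only [IsRearranged, Pool.Agent.Helper84.BT.Real, conv, ← coe_rk, Nat.cast_le]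
  refine ⟨?_, ?_, ?_⟩
  · intro N ψ hN hψ
    rw [hadm] at hψ
    obtain ⟨B, hB⟩ := hN.exists_fund
    obtain ⟨M, hM⟩ := exists_real hB hψ
    refine ⟨M, hreal.2 hM, (hM.presentation hB hψ).isTransversal,
      ((hM.dual hB hψ).presentation hB.dual hψ.dual).isTransversal, fun F => ?_, fun X => ?_⟩
    · constructor
      · intro hF
        exact hM.surj hB hψ hF
      · rintro ⟨X, rfl⟩
        exact ⟨hM.flat hB hψ X, hM.cyclic hB hψ X⟩
    · rw [← coe_rk, ← coe_rk, hM.rk_eq hB hψ X]
  · intro M h1 h2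
    obtain ⟨N, hN, hE, φ, hφ⟩ := exists_dom h1 h2
    have hr : ∀ X : Z N, rk M (φ.symm X) = rk N X := by
      intro X
      have := hφ.rk (φ.symm X)
      rw [φ.apply_symm_apply] at this
      exact this.symm
    refine ⟨N, fun X => (φ.symm X : Set α), hN, hadm.2 ⟨?_, ?_, ?_, ?_, ?_⟩, hreal.2 ⟨hE.symm, ?_⟩⟩
    · intro X
      rw [hE]
      exact (φ.symm X).2.subset_ground
    · intro X Y h
      exact φ.symm.monotone (show X ≤ Y from h)
    · intro X
      have := hφ.card (φ.symm X)
      rw [φ.apply_symm_apply] at this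
      exact this.symm
    · intro S hS
      have := hφ.inter (φ.symm '' S) (hS.image _)
      rw [biInter_image, biInter_image] at this
      simpa only [φ.apply_symm_apply] using this
    · intro S hS
      have := hφ.union (φ.symm '' S) (hS.image _)
      rw [biUnion_image, biUnion_image] at this
      simpa only [φ.apply_symm_apply] using this
    · intro I hI
      rw [indep_iff_cyclicFlat hI]
      constructor
      · intro h X
        rw [← hr]
        exact h _ (φ.symm X).2
      · intro h X hX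
        have h3 := h (φ ⟨X, hX⟩)
        rw [← hr] at h3
        simp only [OrderIso.symm_apply_apply] at h3
        exact h3
  · intro M N₁ N₂ ψ₁ ψ₂ h1 h2 hψ₁ hψ₂ hM₁ hM₂
    rw [hadm] at hψ₁ hψ₂
    rw [hreal] at hM₁ hM₂
    obtain ⟨B₁, hB₁⟩ := h1.exists_fund
    obtain ⟨B₂, hB₂⟩ := h2.exists_fund
    set φ₁ := hM₁.iso hB₁ hψ₁
    set φ₂ := hM₂.iso hB₂ hψ₂
    have key : ∀ X : Z N₁, ψ₂ ((φ₁.trans φ₂.symm) X) = ψ₁ X := by
      intro X
      have h3 : φ₂ (φ₂.symm (φ₁ X)) = φ₁ X := φ₂.apply_symm_apply _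
      exact congrArg Subtype.val h3
    have hr1 := hM₁.rk_eq hB₁ hψ₁
    have hr2 := hM₂.rk_eq hB₂ hψ₂
    obtain ⟨e, he1, he2⟩ := principal_unique (φ := φ₁.trans φ₂.symm)
      (fun X => by rw [← hr2, key X, hr1])
      (fun X => by rw [← hψ₂.card, key X, hψ₁.card]) (by rw [← hM₁.1, ← hM₂.1]) h1 h2
    refine ⟨e, he1, fun X₁ X₂ hX a => ?_⟩
    have h3 : (φ₁.trans φ₂.symm) X₁ = X₂ := by
      apply le_antisymm
      · rw [← hM₂.le_iff hB₂ hψ₂, key, hX]
      · rw [← hM₂.le_iff hB₂ hψ₂, key, hX]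
    rw [← h3]
    exact he2 X₁ a

end Pool.Agent.Results.MP_ab4175_co.Parametrization
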